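import Pool.Agent.P.MP_8d9088_nt.Defs
import Pool.Agent.P.MP_8d9088_nt.Cor

/-! A Dwork type supercongruence for the truncated sums of `(4 k + 1) ((1/2)_k / k!) ^ 4`. -/

namespace Pool.Agent.Results.MP_8d9088_nt.DworkLift

open Pool.Agent.P.MP_8d9088_nt

/-- For every prime `p > 3`, every `N` and `e = (p - 1) / 2` or `e = p - 1`, with
`w = (2 N + 1) p c N`, the sum `S (N p + e)` is congruent to `p S N + (7 / 6) B_{p - 3} w ^ 4`
modulo `p w ^ 4`. -/
theorem result : ∀ p : ℕ, p.Prime → 3 < p → ∀ (N e : ℕ) (w : ℚ),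
    (e = (p - 1) / 2 ∨ e = p - 1) → w = (2 * N + 1) * p * c N →
      Cong p (S (N * p + e)) (p * S N + 7 / 6 * bernoulli (p - 3) * w ^ 4) (p * w ^ 4) := by
  intro p hp h3 N e w he hw
  have : Fact p.Prime := ⟨hp⟩
  obtain ⟨m, hm⟩ : Odd p := hp.odd_of_ne_two (by omega)
  have hw' : w = p * (2 * N + 1) * cc N := by rw [hw, c_eq]; ring
  obtain ⟨⟨u, hu, h1⟩, ⟨v, hv, h2⟩⟩ := main h3 hm N
  rw [← hw'] at h1 h2
  rcases he with rfl | rfl
  · refine ⟨v, hv, ?_⟩
    rw [S_eq, S_eq, show (p - 1) / 2 = m by omega]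
    linear_combination h2
  · refine ⟨u, hu, ?_⟩
    rw [S_eq, S_eq, show N * p + (p - 1) + 1 = (N + 1) * p by rw [add_mul]; omega]
    linear_combination h1

end Pool.Agent.Results.MP_8d9088_nt.DworkLift
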